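import Pool.Agent.H35.RF.Tools

/-!
# [FT] in the tail of the pulled component the speed tends to `c` and the tilt to `0`
-/

open MeasureTheory Set Filter Topology Metric
open Pool.Agent.H29.TF (hk P)
open Pool.Agent.H91.RD Pool.Agent.H91.RF Pool.Agent.H3.RF

namespace Pool.Agent.H35.RF

/-- the positive quantity -/
noncomputable def hP {N : ℕ} (u : ℝ → E N → ℝ) (e : E N) (s : ℝ) (y : E N) : ℝ :=
  max (dt u s y + -dx u e s y) 0

/-- the near supersolution -/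
noncomputable def gT {N : ℕ} (u : ℝ → E N → ℝ) (e : E N) (τ q Λ θ s : ℝ) (y : E N) : ℝ :=
  (-dx u e s y - (τ - q ^ 2) * dt u s y) / q + Λ * (u s y ^ θ * hP u e s y)

/-- the truncated quantity -/
noncomputable def dT {N : ℕ} (u : ℝ → E N → ℝ) (e : E N) (τ q Λ θ s : ℝ) (y : E N) : ℝ :=
  min (hP u e s y) (max (gT u e τ q Λ θ s y) 0)

lemma alg_cases {p d v lam θ τ q δ1 Λ : ℝ} (hp : 0 < p) (hd : 0 < d) (hv : 0 ≤ v) (hlam : 0 < lam)
    (hθ : 0 < θ) (hτ : 0 ≤ τ) (hq : 0 < q) (hδ1 : 0 < δ1) (hqδ : q * (τ + δ1 + 1) ≤ δ1)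
    (hΛ0 : 0 ≤ Λ) (hΛ : Λ * lam ^ θ = 1 + τ / q) (hQ : v ≤ lam → (τ - q ^ 2) * d ≤ p) :
    (min (d + p) (max ((p - (τ - q ^ 2) * d) / q + Λ * (v ^ θ * (d + p))) 0) = d + p ∨
      (v ≤ lam ∧ p ≤ (τ + δ1) * d ∧
        min (d + p) (max ((p - (τ - q ^ 2) * d) / q + Λ * (v ^ θ * (d + p))) 0) =
          (p - (τ - q ^ 2) * d) / q + Λ * (v ^ θ * (d + p)))) ∧
    min (d + p) (max ((p - (τ - q ^ 2) * d) / q + Λ * (v ^ θ * (d + p))) 0) ≤
      (p - (τ - q ^ 2) * d) / q + Λ * (v ^ θ * (d + p)) := by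
  set G : ℝ := (p - (τ - q ^ 2) * d) / q + Λ * (v ^ θ * (d + p)) with hG
  have hq2 : 0 < q ^ 2 := by positivity
  have hvθ : 0 ≤ v ^ θ := Real.rpow_nonneg hv θ
  have h0 : 0 ≤ Λ * (v ^ θ * (d + p)) := by positivity
  rcases le_or_gt v lam with h | h
  · have h1 : 0 ≤ p - (τ - q ^ 2) * d := by linarith [hQ h]
    have h2 : 0 ≤ (p - (τ - q ^ 2) * d) / q := by positivity
    have hG0 : 0 ≤ G := by linarith
    rw [max_eq_left hG0]
    refine ⟨?_, min_le_right _ _⟩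
    rcases le_or_gt (d + p) G with h3 | h3
    · exact Or.inl (min_eq_left h3)
    · refine Or.inr ⟨h, ?_, min_eq_right h3.le⟩
      by_contra hcon
      push Not at hcon
      have h4 : 0 ≤ (τ + 1) * (p - (τ + δ1) * d) := by
        apply mul_nonneg <;> linarith
      have h5 : δ1 * (d + p) ≤ (p - τ * d) * (τ + δ1 + 1) := by nlinarith
      have h6 : q * (d + p) * (τ + δ1 + 1) ≤ (p - τ * d) * (τ + δ1 + 1) := by
        calc q * (d + p) * (τ + δ1 + 1) = q * (τ + δ1 + 1) * (d + p) := by ring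
          _ ≤ δ1 * (d + p) := by gcongr
          _ ≤ _ := h5
      have h7 : q * (d + p) ≤ p - τ * d := le_of_mul_le_mul_right h6 (by linarith)
      have h8 : d + p ≤ (p - (τ - q ^ 2) * d) / q := by
        rw [le_div_iff₀ hq]
        have : 0 < q ^ 2 * d := by positivity
        linarith
      linarith
  · have h1 : -(τ * (d + p)) ≤ p - (τ - q ^ 2) * d := by
      have : 0 < q ^ 2 * d := by positivity
      have : 0 ≤ τ * p := by positivity
      linarith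
    have h2 : -(τ * (d + p)) / q ≤ (p - (τ - q ^ 2) * d) / q := by gcongr
    have h3 : lam ^ θ ≤ v ^ θ := Real.rpow_le_rpow hlam.le h.le hθ.le
    have h4 : (1 + τ / q) * (d + p) ≤ Λ * (v ^ θ * (d + p)) := by
      calc (1 + τ / q) * (d + p) = Λ * (lam ^ θ * (d + p)) := by rw [← hΛ]; ring
        _ ≤ _ := by gcongr
    have h5 : d + p ≤ G := by
      have : -(τ * (d + p)) / q + (1 + τ / q) * (d + p) = d + p := by ring
      linarith
    have h6 : 0 ≤ G := by linarith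
    rw [max_eq_left h6, min_eq_left h5]
    exact ⟨Or.inl rfl, h5⟩

section

variable {N : ℕ} {u : ℝ → E N → ℝ} {V : ℝ → E N → ℝ} {K C : ℝ}

lemma hP_meas (zdt : Zc V C (dt u)) (zdx : ∀ h, Zc V (C * ‖h‖) (dx u h)) (e : E N)
    {s : ℝ} (hs : 1 ≤ s) : Measurable (hP u e s) :=
  ((zdt.meas s hs).add ((zdx e).meas s hs).neg).max measurable_const

lemma hP_nonneg {e : E N} {s : ℝ} (y : E N) : 0 ≤ hP u e s y := le_max_right _ _

lemma hP_le_gr {e : E N} (he : ‖e‖ = 1) {s : ℝ} (y : E N) :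
    hP u e s y ≤ gr u s y + |dt u s y| := by
  have h1 := abs_dx_le' (u := u) he s y
  have h2 := neg_abs_le (dx u e s y)
  have h4 := le_abs_self (dt u s y)
  have h5 : 0 ≤ gr u s y := norm_nonneg _
  have h6 : 0 ≤ |dt u s y| := abs_nonneg _
  exact max_le (by linarith) (by linarith)

lemma hP_le {e : E N} (he : ‖e‖ = 1) {s : ℝ}
    (hC : ∀ t ≥ 1, ∀ x, gr u t x ≤ C ∧ |dt u t x| ≤ C) (hs : 1 ≤ s) (y : E N) :
    hP u e s y ≤ 2 * C := by
  have := hP_le_gr (u := u) he (s := s) y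
  have := hC s hs y
  linarith

lemma uP_meas (zdt : Zc V C (dt u)) (zdx : ∀ h, Zc V (C * ‖h‖) (dx u h)) (e : E N)
    {s : ℝ} (hu : Measurable (u s)) (hs : 1 ≤ s) (θ : ℝ) :
    Measurable (fun y => u s y ^ θ * hP u e s y) :=
  (hu.pow_const θ).mul (hP_meas zdt zdx e hs)

lemma uP_abs {e : E N} (he : ‖e‖ = 1) {s θ : ℝ}
    (hC : ∀ t ≥ 1, ∀ x, gr u t x ≤ C ∧ |dt u t x| ≤ C) (hs : 1 ≤ s) (hθ : 0 < θ)
    (hu : ∀ y, 0 ≤ u s y ∧ u s y ≤ 1) (y : E N) : |u s y ^ θ * hP u e s y| ≤ 2 * C := by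
  have h1 := hP_le he hC hs y
  have h2 := hP_nonneg (u := u) (e := e) (s := s) y
  have h3 : 0 ≤ u s y ^ θ := Real.rpow_nonneg (hu y).1 θ
  have h4 : u s y ^ θ ≤ 1 := Real.rpow_le_one (hu y).1 (hu y).2 hθ.le
  rw [abs_of_nonneg (mul_nonneg h3 h2)]
  calc u s y ^ θ * hP u e s y ≤ 1 * hP u e s y := by gcongr
    _ ≤ 2 * C := by linarith

lemma gT_meas (zdt : Zc V C (dt u)) (zdx : ∀ h, Zc V (C * ‖h‖) (dx u h)) (e : E N)
    (τ q Λ θ : ℝ) {s : ℝ} (hu : Measurable (u s)) (hs : 1 ≤ s) :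
    Measurable (gT u e τ q Λ θ s) :=
  (((((zdx e).meas s hs).neg).sub ((zdt.meas s hs).const_mul _)).div_const q).add
    ((uP_meas zdt zdx e hu hs θ).const_mul Λ)

lemma dT_meas (zdt : Zc V C (dt u)) (zdx : ∀ h, Zc V (C * ‖h‖) (dx u h)) (e : E N)
    (τ q Λ θ : ℝ) {s : ℝ} (hu : Measurable (u s)) (hs : 1 ≤ s) :
    Measurable (dT u e τ q Λ θ s) :=
  (hP_meas zdt zdx e hs).min ((gT_meas zdt zdx e τ q Λ θ hu hs).max measurable_const)

lemma dT_nonneg {e : E N} {τ q Λ θ s : ℝ} (y : E N) : 0 ≤ dT u e τ q Λ θ s y :=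
  le_min (hP_nonneg y) (le_max_right _ _)

lemma dT_le {e : E N} {τ q Λ θ s : ℝ} (y : E N) : dT u e τ q Λ θ s y ≤ hP u e s y :=
  min_le_left _ _

lemma gT_abs {e : E N} (he : ‖e‖ = 1) {τ q Λ θ s : ℝ}
    (hC : ∀ t ≥ 1, ∀ x, gr u t x ≤ C ∧ |dt u t x| ≤ C) (hs : 1 ≤ s) (hθ : 0 < θ) (hq : 0 < q)
    (hΛ : 0 ≤ Λ) (hu : ∀ y, 0 ≤ u s y ∧ u s y ≤ 1) (y : E N) :
    |gT u e τ q Λ θ s y| ≤ (C + |τ - q ^ 2| * C) / q + Λ * (2 * C) := by
  unfold gT
  refine (abs_add_le _ _).trans (add_le_add ?_ ?_)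
  · rw [abs_div, abs_of_pos hq]
    gcongr
    refine (abs_sub _ _).trans (add_le_add ?_ ?_)
    · rw [abs_neg]
      exact (abs_dx_le' he s y).trans (hC s hs y).1
    · rw [abs_mul]
      exact mul_le_mul_of_nonneg_left (hC s hs y).2 (abs_nonneg _)
  · rw [abs_mul, abs_of_nonneg hΛ]
    exact mul_le_mul_of_nonneg_left (uP_abs he hC hs hθ hu y) hΛ

lemma gT_int (hKER : T_KER) (hV : Pt K V) (zdt : Zc V C (dt u))
    (zdx : ∀ h, Zc V (C * ‖h‖) (dx u h)) {e : E N} (he : ‖e‖ = 1) {τ q Λ θ s t : ℝ}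
    (hC : ∀ t ≥ 1, ∀ x, gr u t x ≤ C ∧ |dt u t x| ≤ C) (hs : 1 ≤ s) (hst : s < t) (hθ : 0 < θ)
    (hu : ∀ y, 0 ≤ u s y ∧ u s y ≤ 1) (hum : Measurable (u s)) (x : E N) :
    ∫ y, gk V t x s y * gT u e τ q Λ θ s y =
      (-dx u e t x - (τ - q ^ 2) * dt u t x) / q +
        Λ * ∫ y, gk V t x s y * (u s y ^ θ * hP u e s y) := by
  have zg := zc_g hKER hV zdt zdx he (τ - q ^ 2)
  have i1 := gk_int hKER hV hst x (zg.meas s hs) (zg.bdd s hs)
  have i2 := gk_int hKER hV hst x (uP_meas zdt zdx e hum hs θ) (uP_abs he hC hs hθ hu)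
  have e1 : ∀ y, gk V t x s y * gT u e τ q Λ θ s y =
      (gk V t x s y * (-dx u e s y - (τ - q ^ 2) * dt u s y)) * q⁻¹ +
        Λ * (gk V t x s y * (u s y ^ θ * hP u e s y)) := fun y => by
    unfold gT
    rw [div_eq_mul_inv]
    ring
  simp only [e1]
  rw [integral_add (i1.mul_const _) (i2.const_mul _), integral_mul_const, integral_const_mul,
    ← zg.rep s t hs hst x, div_eq_mul_inv]

/-- the truncated quantity is nearly a supersolution -/
lemma dT_super (hKER : T_KER) (hV : Pt K V) (zdt : Zc V C (dt u))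
    (zdx : ∀ h, Zc V (C * ‖h‖) (dx u h)) {e : E N} (he : ‖e‖ = 1) {τ q Λ θ s t M B r : ℝ}
    (hC : ∀ t ≥ 1, ∀ x, gr u t x ≤ C ∧ |dt u t x| ≤ C) (hs : 1 ≤ s) (hst : s < t) (hθ : 0 < θ)
    (hq : 0 < q) (hΛ : 0 ≤ Λ) (hu : ∀ y, 0 ≤ u s y ∧ u s y ≤ 1) (hum : Measurable (u s))
    (x : E N)
    (hB : ∀ g : E N → ℝ, Measurable g → (∀ y, |g y| ≤ M) → (∀ y, dist y x ≤ r → g y = 0) →
      |∫ y, gk V t x s y * g y| ≤ B)
    (hM : 2 * C + ((C + |τ - q ^ 2| * C) / q + Λ * (2 * C)) ≤ M)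
    (h0 : ∀ y, dist y x ≤ r → 0 ≤ dt u s y + -dx u e s y ∧
      dT u e τ q Λ θ s y ≤ gT u e τ q Λ θ s y)
    (hpos : 0 ≤ dt u t x + -dx u e t x)
    (hcase : dT u e τ q Λ θ t x = dt u t x + -dx u e t x ∨ (dT u e τ q Λ θ t x = gT u e τ q Λ θ t x ∧
      ∫ y, gk V t x s y * (u s y ^ θ * hP u e s y) ≤ u t x ^ θ * (dt u t x + -dx u e t x))) :
    ∫ y, gk V t x s y * dT u e τ q Λ θ s y ≤ dT u e τ q Λ θ t x + B := by
  have hC0 : 0 ≤ C := (norm_nonneg _).trans (hC 1 le_rfl x).1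
  have hG0 : 0 ≤ (C + |τ - q ^ 2| * C) / q + Λ * (2 * C) := by positivity
  have bD : ∀ y, |dT u e τ q Λ θ s y| ≤ 2 * C := fun y => by
    rw [abs_of_nonneg (dT_nonneg y)]
    exact (dT_le y).trans (hP_le he hC hs y)
  have mD := dT_meas zdt zdx e τ q Λ θ hum hs
  rcases hcase with hc | ⟨hc, hc2⟩
  · have zz := zc_z hKER hV zdt zdx he
    have h1 := zz.near hKER hV hs hst x (r := r) (B := B)
      (fun g hg hgC hg0 => hB g hg (fun y => (hgC y).trans (by linarith)) hg0)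
      (fun y hy => (h0 y hy).1)
    rw [hc]
    refine le_trans ?_ h1
    refine gk_mono hKER hV hst x mD bD (hP_meas zdt zdx e hs) (M' := 2 * C) (fun y => ?_)
      (fun y => dT_le y)
    show |hP u e s y| ≤ 2 * C
    rw [abs_of_nonneg (hP_nonneg y)]
    exact hP_le he hC hs y
  · have bG := gT_abs (u := u) (C := C) he (τ := τ) (q := q) (Λ := Λ) (θ := θ) hC hs hθ hq hΛ hu
    have mG := gT_meas zdt zdx e τ q Λ θ hum hs
    have bE : ∀ y, |max (dT u e τ q Λ θ s y - gT u e τ q Λ θ s y) 0| ≤ M := fun y => by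
      rw [abs_of_nonneg (le_max_right _ _)]
      refine max_le ?_ (by linarith)
      have := (abs_le.1 (bD y)).2
      have := (abs_le.1 (bG y)).1
      linarith
    have mE : Measurable (fun y => max (dT u e τ q Λ θ s y - gT u e τ q Λ θ s y) 0) :=
      (mD.sub mG).max measurable_const
    have h1 := hB _ mE bE (fun y hy => max_eq_right (by linarith [(h0 y hy).2]))
    have i1 := gk_int hKER hV hst x mG bG
    have i2 := gk_int hKER hV hst x mE bE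
    have h2 : ∫ y, gk V t x s y * dT u e τ q Λ θ s y ≤
        (∫ y, gk V t x s y * gT u e τ q Λ θ s y) +
          ∫ y, gk V t x s y * max (dT u e τ q Λ θ s y - gT u e τ q Λ θ s y) 0 := by
      rw [← integral_add i1 i2]
      refine integral_mono (gk_int hKER hV hst x mD bD) (i1.add i2) fun y => ?_
      show gk V t x s y * dT u e τ q Λ θ s y ≤ gk V t x s y * gT u e τ q Λ θ s y +
        gk V t x s y * max (dT u e τ q Λ θ s y - gT u e τ q Λ θ s y) 0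
      rw [← mul_add]
      refine mul_le_mul_of_nonneg_left ?_ (gk_nonneg hKER hV hst x y)
      have := le_max_left (dT u e τ q Λ θ s y - gT u e τ q Λ θ s y) 0
      linarith
    rw [gT_int hKER hV zdt zdx he hC hs hst hθ hu hum x] at h2
    have h3 : gT u e τ q Λ θ t x = (-dx u e t x - (τ - q ^ 2) * dt u t x) / q +
        Λ * (u t x ^ θ * (dt u t x + -dx u e t x)) := by
      unfold gT hP
      rw [max_eq_left hpos]
    rw [hc, h3]
    have h4 := mul_le_mul_of_nonneg_left hc2 hΛ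
    have h5 := (le_abs_self _).trans h1
    linarith

end

end Pool.Agent.H35.RF
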