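import Pool.Agent.H35.RF.FT

/-!
# [FT] one step: from `τ` to `τ + q²`
-/

open MeasureTheory Set Filter Topology Metric
open Pool.Agent.H29.TF (hk P)
open Pool.Agent.H91.RD Pool.Agent.H91.RF Pool.Agent.H3.RF

namespace Pool.Agent.H35.RF

/-- the choice of the constants -/
lemma consts {K β g τ δ1 θ : ℝ} (hκ : 0 < K + β ^ 2 + g) (hg : 0 < g) (hτ : 0 ≤ τ)
    (hδ1 : 0 < δ1) (hθ : 0 < θ) :
    ∃ q : ℝ, 0 < q ∧ q * (τ + δ1 + 1) ≤ δ1 ∧ (K + β ^ 2 + g) * (4 * q) ≤ g / 4 ∧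
      (∀ lam > 0, ∃ Λ lam' : ℝ, 0 ≤ Λ ∧ Λ * lam ^ θ = 1 + τ / q ∧ 0 < lam' ∧ lam' ≤ lam ∧
        ∀ v, 0 ≤ v → v ≤ lam' → Λ * v ^ θ ≤ 2 * q) := by
  set κ := K + β ^ 2 + g with hκd
  have h1 : 0 < τ + δ1 + 1 := by linarith
  refine ⟨min (δ1 / (τ + δ1 + 1)) (g / (16 * κ)), by positivity, ?_, ?_, ?_⟩
  · calc min (δ1 / (τ + δ1 + 1)) (g / (16 * κ)) * (τ + δ1 + 1)
        ≤ (δ1 / (τ + δ1 + 1)) * (τ + δ1 + 1) := by gcongr; exact min_le_left _ _
      _ = δ1 := by field_simp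
  · calc κ * (4 * min (δ1 / (τ + δ1 + 1)) (g / (16 * κ))) ≤ κ * (4 * (g / (16 * κ))) := by
          gcongr; exact min_le_right _ _
      _ = g / 4 := by field_simp; ring
  · intro lam hlam
    set q : ℝ := min (δ1 / (τ + δ1 + 1)) (g / (16 * κ)) with hq
    have hq0 : 0 < q := by positivity
    have hlθ : 0 < lam ^ θ := Real.rpow_pos_of_pos hlam θ
    have hΛ : 0 < (1 + τ / q) / lam ^ θ := by positivity
    refine ⟨(1 + τ / q) / lam ^ θ, min lam ((2 * q / ((1 + τ / q) / lam ^ θ)) ^ θ⁻¹), hΛ.le,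
      by field_simp, lt_min hlam (Real.rpow_pos_of_pos (by positivity) _), min_le_left _ _, ?_⟩
    intro v hv hvl
    set Λ : ℝ := (1 + τ / q) / lam ^ θ
    have h2 : v ^ θ ≤ 2 * q / Λ := by
      calc v ^ θ ≤ ((2 * q / Λ) ^ θ⁻¹) ^ θ :=
            Real.rpow_le_rpow hv (hvl.trans (min_le_right _ _)) hθ.le
        _ = 2 * q / Λ := Real.rpow_inv_rpow (by positivity) hθ.ne'
    calc Λ * v ^ θ ≤ Λ * (2 * q / Λ) := by gcongr
      _ = 2 * q := by field_simp

/-- the truncated quantity at a point where the conclusion fails -/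
lemma dT_small {N : ℕ} {u : ℝ → E N → ℝ} {e : E N} {τ q Λ θ t : ℝ} {x : E N}
    (hp : 0 < -dx u e t x) (hd : 0 < dt u t x) (hq : 0 < q)
    (hΛ : Λ * u t x ^ θ ≤ 2 * q) (hc : -dx u e t x < (τ + q ^ 2) * dt u t x) :
    dT u e τ q Λ θ t x ≤ 4 * q * hP u e t x := by
  have hh : hP u e t x = dt u t x + -dx u e t x := max_eq_left (by linarith)
  refine (min_le_right _ _).trans (max_le ?_ (by rw [hh]; positivity))
  unfold gT
  have h1 : (-dx u e t x - (τ - q ^ 2) * dt u t x) / q ≤ 2 * q * dt u t x := by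
    rw [div_le_iff₀ hq]
    have h2 : -dx u e t x - (τ - q ^ 2) * dt u t x < 2 * q ^ 2 * dt u t x := by linarith
    have h3 : 2 * q * dt u t x * q = 2 * q ^ 2 * dt u t x := by ring
    linarith
  have h4 : Λ * (u t x ^ θ * hP u e t x) ≤ 2 * q * hP u e t x := by
    rw [← mul_assoc]
    exact mul_le_mul_of_nonneg_right hΛ (by rw [hh]; positivity)
  have h5 : 2 * q * dt u t x ≤ 2 * q * hP u e t x := by
    rw [hh]
    gcongr
    linarith
  linarith

lemma dT_cases {N : ℕ} {u : ℝ → E N → ℝ} {e : E N} {τ q Λ θ δ1 lam s : ℝ} {y : E N}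
    (hp : 0 < -dx u e s y) (hd : 0 < dt u s y) (hv : 0 ≤ u s y) (hlam : 0 < lam) (hθ : 0 < θ)
    (hτ : 0 ≤ τ) (hq : 0 < q) (hδ1 : 0 < δ1) (hqδ : q * (τ + δ1 + 1) ≤ δ1) (hΛ0 : 0 ≤ Λ)
    (hΛ : Λ * lam ^ θ = 1 + τ / q)
    (hQ : u s y ≤ lam → (τ - q ^ 2) * dt u s y ≤ -dx u e s y) :
    (dT u e τ q Λ θ s y = dt u s y + -dx u e s y ∨
      (u s y ≤ lam ∧ -dx u e s y ≤ (τ + δ1) * dt u s y ∧
        dT u e τ q Λ θ s y = gT u e τ q Λ θ s y)) ∧
    dT u e τ q Λ θ s y ≤ gT u e τ q Λ θ s y := by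
  have h := alg_cases hp hd hv hlam hθ hτ hq hδ1 hqδ hΛ0 hΛ hQ
  have hh : max (dt u s y + -dx u e s y) 0 = dt u s y + -dx u e s y :=
    max_eq_left (by linarith)
  unfold dT gT hP
  rw [hh]
  exact h

/-- the final contradiction -/
lemma final_ctr {lh β δ t S g κ C ε ηf d n q D h : ℝ} (hh : 0 < h) (hlog : -(ε * t) ≤ lh)
    (hd : -(ηf * t) ≤ d) (hβ : 0 ≤ β) (hβη : β * ηf ≤ g * δ / 8) (ht0 : 0 ≤ t) (hg : 0 < g)
    (hS : 0 < S) (hκ : 0 ≤ κ) (hn0 : 0 ≤ n) (hn : δ * t - S ≤ n * S)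
    (hD : D ≤ 4 * q * h) (hqκ : κ * (4 * q) ≤ g / 4) (hε : (2 + β) * ε ≤ g * δ / 8)
    (ht : (Real.log (2 * C) + 2 + 3 / 4 * g * S) * 2 ≤ g * δ * t)
    (key : lh + β * d + n * g * S - κ * n * S * (D / h) ≤
      Real.log (2 * C) + (1 + β) * ε * t + 1) : False := by
  have k1 : D / h ≤ 4 * q := by
    rw [div_le_iff₀ hh]
    exact hD
  have k2 : κ * n * S * (D / h) ≤ n * S * (g / 4) := by
    calc κ * n * S * (D / h) ≤ κ * n * S * (4 * q) := by gcongr
      _ = n * S * (κ * (4 * q)) := by ring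
      _ ≤ n * S * (g / 4) := by gcongr
  have k3 : 3 / 4 * g * (δ * t - S) ≤ 3 / 4 * g * (n * S) := by gcongr
  have k4 : -(g * δ / 8 * t) ≤ β * d := by
    have h1 : β * (-(ηf * t)) ≤ β * d := mul_le_mul_of_nonneg_left hd hβ
    have h2 : β * ηf * t ≤ g * δ / 8 * t := mul_le_mul_of_nonneg_right hβη ht0
    linarith
  have k5 : (2 + β) * ε * t ≤ g * δ / 8 * t := mul_le_mul_of_nonneg_right hε ht0
  linarith

theorem qv_step (hKER : T_KER) (hNSUP : T_NSUP) (hGEOB : T_GEOB) (hUPB : T_UPB)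
    (hKREP : T_KREP) (hLINU : T_LINU) (hTRIV : T_TRIV) (hCHN : T_CHN) (hFTL : T_FTL)
    {N : ℕ} {f : ℝ → ℝ} {K C0 C9 η0 cc hi : ℝ} {U : Set (E N)} {u : ℝ → E N → ℝ}
    (hS : Stg f K U u) (hMac : Mac U u cc 0 hi) (hfp : 4 * fp f 0 = cc ^ 2)
    (hF : Frm U u cc C0 C9 η0) (hAD : AheadD U u cc) (hKI : KIn U u cc) (hVS : VSl U u cc)
    {τ : ℝ} (hτ : 0 ≤ τ) (hτc : τ * cc < 1) (hQ : Qv U u cc τ) :
    ∃ ε3 > 0, Qv U u cc (τ + ε3) := by
  obtain ⟨S, θ, g, δ1, lam1, ηL, TL, hS0, hθ, hg, hδ1, hlam1, hηL, hTL, hftl⟩ :=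
    hFTL N f K C0 C9 η0 cc hi U u hS hMac hfp hF hKI hVS τ hτ hτc hQ
  obtain ⟨hV, C, hC1, hCb, zdt, zdx⟩ := zc_dx hLINU hKREP hS
  have hcc := hMac.cpos
  have hK := hV.K0
  set β : ℝ := cc / 2 with hβdef
  have hβ : 0 < β := by positivity
  set κ : ℝ := K + β ^ 2 + g with hκdef
  have hκ : 0 < κ := by positivity
  -- the constants
  obtain ⟨q, hq, hqδ, hqκ, hqΛ⟩ := consts (K := K) (β := β) (g := g) (τ := τ) (δ1 := δ1) (θ := θ)
    hκ hg hτ hδ1 hθ
  rw [← hκdef] at hqκ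
  obtain ⟨lamq, hlamq, ηq, hηq, Tq, hTq, hQq⟩ := hQ (q ^ 2) (by positivity)
  obtain ⟨Λ, lam', hΛ0, hΛ1, hlam', hlamle, hΛ2⟩ := hqΛ (min lam1 lamq) (lt_min hlam1 hlamq)
  have hlam : 0 < min lam1 lamq := lt_min hlam1 hlamq
  obtain ⟨L, hL, hchn⟩ := hCHN N K β cc hS.N1 hK hβ.le hcc
  have hL0 : 0 < L := by linarith
  obtain ⟨η1, hη1, T1, hT1, hlow1⟩ := kin_low hF hKI hcc 1 one_pos
  obtain ⟨ηA, hηA, hahd⟩ := hAD
  obtain ⟨ρ, hρ, hρ2, -, Tb, hTb, hbox⟩ := box hUPB hS.condC hS.ne hcc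
    (min (min ηL ηq) (min η1 ηA)) (by positivity)
  obtain ⟨Cg, hCg, ρ0, hρ0, hgeo⟩ := hGEOB N U (cc / 2) (2 * cc) hS.condC hS.ne (by positivity)
    (by linarith)
  obtain ⟨δ, hδ, hδ1', hLδ, hLδ0⟩ : ∃ δ : ℝ, 0 < δ ∧ δ ≤ 1 ∧ L * δ ≤ ρ / 2 ∧ L * δ ≤ ρ0 := by
    refine ⟨min 1 (min (ρ / (2 * L)) (ρ0 / L)), by positivity, min_le_left _ _, ?_, ?_⟩
    · calc L * _ ≤ L * (ρ / (2 * L)) := by
            gcongr; exact (min_le_right _ _).trans (min_le_left _ _)
        _ = ρ / 2 := by field_simp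
    · calc L * _ ≤ L * (ρ0 / L) := by
            gcongr; exact (min_le_right _ _).trans (min_le_right _ _)
        _ = ρ0 := by field_simp
  have hδρ : δ ≤ ρ / 2 := (le_mul_of_one_le_left hδ.le hL).trans hLδ
  obtain ⟨ε, hε, hεδ, hεδ'⟩ : ∃ ε : ℝ, 0 < ε ∧ (2 + β) * ε ≤ g * δ / 8 ∧ ε ≤ δ := by
    refine ⟨min (g * δ / 8 / (2 + β)) δ, by positivity, ?_, min_le_right _ _⟩
    calc (2 + β) * min (g * δ / 8 / (2 + β)) δ ≤ (2 + β) * (g * δ / 8 / (2 + β)) := by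
          gcongr; exact min_le_left _ _
      _ = g * δ / 8 := by field_simp
  obtain ⟨ηg, hηg, Tg, hTg, hgeo⟩ := hgeo (L * δ) (by positivity) hLδ0 ε hε
  obtain ⟨TA, hTA, hahd⟩ := hahd ε hε
  obtain ⟨η2, hη2, T2, hT2, hlow2⟩ := kin_low hF hKI hcc ε hε
  set M : ℝ := 2 * C + ((C + |τ - q ^ 2| * C) / q + Λ * (2 * C)) with hMdef
  have hM0 : 0 < M := by positivity
  obtain ⟨δN, hδN, hδNs⟩ : ∃ δN : ℝ, 0 < δN ∧ 16 * δN * (K * δN + 5 + 1) ≤ (ρ / 2) ^ 2 := by
    refine ⟨min 1 (ρ ^ 2 / (64 * (K + 6))), by positivity, ?_⟩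
    have h1 : min 1 (ρ ^ 2 / (64 * (K + 6))) ≤ 1 := min_le_left _ _
    have h2 : min 1 (ρ ^ 2 / (64 * (K + 6))) ≤ ρ ^ 2 / (64 * (K + 6)) := min_le_right _ _
    have h0 : 0 < min 1 (ρ ^ 2 / (64 * (K + 6))) := by positivity
    calc 16 * min 1 (ρ ^ 2 / (64 * (K + 6))) * (K * min 1 (ρ ^ 2 / (64 * (K + 6))) + 5 + 1)
        ≤ 16 * (ρ ^ 2 / (64 * (K + 6))) * (K * 1 + 5 + 1) := by gcongr
      _ = (ρ / 2) ^ 2 := by field_simp; ring
  obtain ⟨Tn, hTn, hns⟩ := hNSUP N K M (ρ / 2) δN 5 hK hM0 (by linarith) hδN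
    (by norm_num) hδNs
  obtain ⟨Tc, hTc, hch⟩ := hchn δ S g κ (2 * C) 1 hδ hδ1' hS0 hg hκ.le (by linarith) one_pos
  obtain ⟨ηf, hηf, hf1, hf2, hf3, hf4, hf5, hf6⟩ : ∃ η : ℝ, 0 < η ∧ η ≤ ρ ∧ η ≤ ηg ∧ η ≤ η2 ∧
      η ≤ 1 ∧ η ≤ cc / 2 ∧ β * η ≤ g * δ / 8 := by
    refine ⟨min (min ρ ηg) (min (min η2 1) (min (cc / 2) (g * δ / 8 / β))), by positivity,
      (min_le_left _ _).trans (min_le_left _ _), (min_le_left _ _).trans (min_le_right _ _),
      (min_le_right _ _).trans ((min_le_left _ _).trans (min_le_left _ _)),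
      (min_le_right _ _).trans ((min_le_left _ _).trans (min_le_right _ _)),
      (min_le_right _ _).trans ((min_le_right _ _).trans (min_le_left _ _)), ?_⟩
    calc β * _ ≤ β * (g * δ / 8 / β) := by
          gcongr
          exact (min_le_right _ _).trans ((min_le_right _ _).trans (min_le_right _ _))
      _ = g * δ / 8 := by field_simp
  have hev : ∀ᶠ t in atTop, (2 * TL ≤ t ∧ 2 * T1 ≤ t ∧ 2 * Tq ≤ t ∧ 2 * TA ≤ t) ∧ (Tb ≤ t ∧
      Tg ≤ t ∧ T2 ≤ t ∧ Tn ≤ t) ∧ (Tc ≤ t ∧ 2 ≤ t ∧ S / δN ≤ t ∧ S / δ ≤ t) ∧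
      (Real.log (2 * C) + 2 + 3 / 4 * g * S) * 2 / (g * δ) ≤ t :=
    ((eventually_ge_atTop _).and ((eventually_ge_atTop _).and ((eventually_ge_atTop _).and
      (eventually_ge_atTop _)))).and (((eventually_ge_atTop _).and ((eventually_ge_atTop _).and
      ((eventually_ge_atTop _).and (eventually_ge_atTop _)))).and
      (((eventually_ge_atTop _).and ((eventually_ge_atTop _).and
      ((eventually_ge_atTop _).and (eventually_ge_atTop _)))).and (eventually_ge_atTop _)))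
  obtain ⟨T3, hT3⟩ := eventually_atTop.1 hev
  refine ⟨q ^ 2, by positivity, fun ε' hε' => ⟨lam', hlam', ηf, hηf, max T3 1, by positivity, ?_⟩⟩
  intro t ht x0 e hn hd hul
  obtain ⟨⟨s1, s2, s3, s4⟩, ⟨s5, s6, s7, s8⟩, ⟨s9, s10, s11, s12⟩, s13⟩ :=
    hT3 t ((le_max_left _ _).trans ht)
  have ht0 : 0 < t := by linarith
  have he : ‖e‖ = 1 := hn.1
  obtain ⟨p1, -, p3, -, p5⟩ := hlow2 t s7 x0 e (ndir_mono hn hf3) (hd.trans (by gcongr))
  suffices hsuff : (τ + q ^ 2) * dt u t x0 ≤ -dx u e t x0 by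
    have : 0 < ε' * dt u t x0 := by positivity
    linarith
  by_contra hcon
  push Not at hcon
  have hdρ : |infDist x0 U - cc * t| ≤ ρ * t := hd.trans (by gcongr)
  have hnρ := ndir_mono hn hf1
  have hd' := abs_le.1 hd
  -- the number of steps
  set n : ℕ := ⌊δ * t / S⌋₊ with hndef
  have hδt2 : S ≤ δ * t := by
    rw [div_le_iff₀ hδ] at s12
    linarith
  have hn1 : n * S ≤ δ * t := by
    have : (n : ℝ) ≤ δ * t / S := Nat.floor_le (by positivity)
    rwa [le_div_iff₀ hS0] at this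
  have hn2 : δ * t - S ≤ n * S := by
    have h1 : δ * t / S < n + 1 := Nat.lt_floor_add_one _
    rw [div_lt_iff₀ hS0] at h1
    linarith
  have hn3 : 1 ≤ n := by
    rw [hndef, Nat.one_le_floor_iff, one_le_div hS0]
    exact hδt2
  have hδt : δ * t ≤ ρ / 2 * t := by gcongr
  have hρt : ρ * t ≤ 1 / 2 * t := by gcongr
  have htime : ∀ j : ℕ, j ≤ n → t - j * S ∈ Icc ((1 - ρ) * t) t ∧ 1 ≤ t - j * S ∧
      t / 2 ≤ t - j * S := by
    intro j hj
    have h1 : (j : ℝ) * S ≤ n * S := mul_le_mul_of_nonneg_right (by exact_mod_cast hj) hS0.le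
    have hj0 : (0 : ℝ) ≤ j * S := by positivity
    exact ⟨⟨by linarith, by linarith⟩, by linarith, by linarith⟩
  have htime' : ∀ j : ℕ, j < n → t - j * S - S ∈ Icc ((1 - ρ) * t) t ∧ 1 ≤ t - j * S - S ∧
      t / 2 ≤ t - j * S - S := by
    intro j hj
    have := htime (j + 1) hj
    push_cast at this
    rwa [show t - ((j : ℝ) + 1) * S = t - j * S - S by ring] at this
  -- box facts
  have hB : ∀ s ∈ Icc ((1 - ρ) * t) t, t / 2 ≤ s → ∀ y, dist y x0 ≤ ρ * t →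
      (0 < -dx u e s y ∧ Real.exp (-t) ≤ -dx u e s y ∧ 0 < dt u s y) ∧
      (NDir U ηL y e ∧ |infDist y U - cc * s| ≤ ηL * s) ∧
      (u s y ≤ min lam1 lamq → (τ - q ^ 2) * dt u s y ≤ -dx u e s y) ∧
      |infDist y U - cc * s| ≤ ηA * s := by
    intro s hs hs2 y hy
    obtain ⟨b1, b2⟩ := hbox t s5 x0 e hnρ hdρ s hs y hy
    have c0 : 0 ≤ s := by linarith
    obtain ⟨l1, -, l3, -, l5⟩ := hlow1 s (by linarith) y e
      (ndir_mono b1 ((min_le_right _ _).trans (min_le_left _ _)))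
      (b2.trans (mul_le_mul_of_nonneg_right ((min_le_right _ _).trans (min_le_left _ _)) c0))
    refine ⟨⟨l1, le_trans (Real.exp_le_exp.2 (by linarith [hs.2])) l3, l5⟩,
      ⟨ndir_mono b1 ((min_le_left _ _).trans (min_le_left _ _)),
      b2.trans (mul_le_mul_of_nonneg_right ((min_le_left _ _).trans (min_le_left _ _)) c0)⟩,
      fun hu => ?_,
      b2.trans (mul_le_mul_of_nonneg_right ((min_le_right _ _).trans (min_le_right _ _)) c0)⟩
    exact hQq s (by linarith) y e (ndir_mono b1 ((min_le_left _ _).trans (min_le_right _ _)))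
      (b2.trans (mul_le_mul_of_nonneg_right ((min_le_left _ _).trans (min_le_right _ _)) c0))
      (hu.trans (min_le_right _ _))
  have hball : ∀ x ∈ closedBall x0 (L * δ * t), dist x x0 ≤ ρ / 2 * t := by
    intro x hx
    rw [mem_closedBall] at hx
    exact hx.trans (by gcongr)
  have hball' : ∀ x ∈ closedBall x0 (L * δ * t), dist x x0 ≤ ρ * t := fun x hx =>
    (hball x hx).trans (by
      have : 0 < ρ * t := by positivity
      linarith)
  have hcs : ∀ s ∈ Icc ((1 - ρ) * t) t, t / 2 ≤ s → ∀ y, dist y x0 ≤ ρ * t →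
      (dT u e τ q Λ θ s y = dt u s y + -dx u e s y ∨
        (u s y ≤ min lam1 lamq ∧ -dx u e s y ≤ (τ + δ1) * dt u s y ∧
          dT u e τ q Λ θ s y = gT u e τ q Λ θ s y)) ∧
      dT u e τ q Λ θ s y ≤ gT u e τ q Λ θ s y := by
    intro s hs hs2 y hy
    obtain ⟨⟨b1, -, b3⟩, -, b5, -⟩ := hB s hs hs2 y hy
    exact dT_cases b1 b3 (stg_rng hS (by linarith) y).1 hlam hθ hτ hq hδ1 hqδ hΛ0 hΛ1 b5
  have hhP : ∀ s ∈ Icc ((1 - ρ) * t) t, t / 2 ≤ s → ∀ y, dist y x0 ≤ ρ * t →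
      hP u e s y = dt u s y + -dx u e s y ∧ 0 < hP u e s y ∧ Real.exp (-t) ≤ hP u e s y := by
    intro s hs hs2 y hy
    obtain ⟨⟨b1, b2, b3⟩, -⟩ := hB s hs hs2 y hy
    have h1 : hP u e s y = dt u s y + -dx u e s y := max_eq_left (by linarith)
    exact ⟨h1, by rw [h1]; linarith, by rw [h1]; linarith⟩
  have htI : t ∈ Icc ((1 - ρ) * t) t := ⟨by nlinarith only [hS0, hδt2, hδt], le_rfl⟩
  have hx0 : dist x0 x0 ≤ ρ * t := by rw [dist_self]; positivity
  obtain ⟨q1, q2, q3⟩ := hhP t htI (by linarith) x0 hx0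
  set B1 : ℝ := Real.log (2 * C) + (1 + β) * ε * t with hB1
  have hlC : 0 ≤ Real.log (2 * C) := Real.log_nonneg (by linarith)
  have hB10 : 0 ≤ B1 := add_nonneg hlC (by positivity)
  have key := hch t s9 n (pot f u) (hP u e) (dT u e τ q Λ θ) x0 e ∅
    (infDist x0 U) B1 0 0 hn3 hn1 he hV MeasurableSet.empty
    (hd.trans (mul_le_of_le_one_left ht0.le hf4)) hB10 le_rfl
    ?_ ?_ ?_ ?_ ?_ ?_ ?_ ?_
  · -- conclusion
    refine final_ctr (β := β) (ε := ε) (t := t) (S := S) (g := g) (κ := κ) (C := C) (δ := δ)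
      (ηf := ηf) (d := infDist x0 U - cc * t) (n := n) (q := q) (D := dT u e τ q Λ θ t x0)
      (lh := Real.log (hP u e t x0)) q2 ?_ (by linarith [hd'.1]) hβ.le hf6 ht0.le hg hS0 hκ.le
      (Nat.cast_nonneg n) hn2 ?_ hqκ hεδ ?_ (by linarith)
    · rw [Real.le_log_iff_exp_le q2]
      rw [q1]
      linarith
    · exact dT_small p1 p5 hq (hΛ2 _ (stg_rng hS ht0 x0).1 hul) hcon
    · rw [div_le_iff₀ (by positivity)] at s13
      linarith
  · -- measurability and bounds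
    intro s hs
    have hs1 : 1 ≤ s := by linarith [hs.1]
    refine ⟨hP_meas zdt zdx e hs1,
      dT_meas zdt zdx e τ q Λ θ (stg_cont hS (by linarith)).measurable hs1, fun y =>
      ⟨hP_nonneg y, hP_le he hCb hs1 y, dT_nonneg y, (dT_le y).trans (hP_le he hCb hs1 y)⟩⟩
  · intro j hj x hx
    rw [one_mul]
    exact (hhP _ (htime j hj).1 (htime j hj).2.2 x (hball' x hx)).2.2
  · intro j hj x hx
    rw [(hhP _ (htime j hj.le).1 (htime j hj.le).2.2 x (hball' x hx)).1]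
    exact (le_max_left _ _).trans ((zc_z hKER hV zdt zdx he).pos_le hKER hV (htime' j hj).2.1
      (by linarith) x)
  · -- nearly super
    intro j hj x hx
    obtain ⟨c1, c2, c3⟩ := htime j hj.le
    obtain ⟨c4, c5, c6⟩ := htime' j hj
    obtain ⟨r1, r2, r3⟩ := hhP _ c1 c3 x (hball' x hx)
    obtain ⟨⟨b1, b2, b3⟩, ⟨b4, b4'⟩, b5, -⟩ := hB _ c1 c3 x (hball' x hx)
    have h1 := dT_super hKER hV zdt zdx he (τ := τ) (q := q) (Λ := Λ) (θ := θ)
      (s := t - j * S - S) (t := t - j * S) (M := M) (B := Real.exp (-(5 * t))) (r := ρ / 2 * t)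
      hCb c5 (by linarith) hθ hq hΛ0 (fun y => stg_rng hS (by linarith) y)
      (stg_cont hS (by linarith)).measurable x
      (fun g hg hgC hg0 => hns t s8 (pot f u) g (t - j * S) S x hV hg hgC hS0 (by
        rw [div_le_iff₀ hδN] at s11
        linarith) hg0) (by rw [hMdef])
      (fun y hy => by
        have h1 : dist y x0 ≤ ρ * t := by
          have := dist_triangle y x x0
          have := hball x hx
          linarith
        obtain ⟨⟨d1, d2, d3⟩, -⟩ := hB _ c4 c6 y h1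
        exact ⟨by linarith, (hcs _ c4 c6 y h1).2⟩)
      (by linarith)
      (by
        rcases (hcs _ c1 c3 x (hball' x hx)).1 with h | ⟨h2, h3, h4⟩
        · exact Or.inl h
        · exact Or.inr ⟨h4, (hftl _ (by linarith) x e b4 b4' (h2.trans (min_le_left _ _)) h3).2⟩)
    refine h1.trans (add_le_add le_rfl ?_)
    calc Real.exp (-(5 * t)) ≤ Real.exp (-t) * Real.exp (-t) := by
          rw [← Real.exp_add]
          apply Real.exp_le_exp.2
          linarith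
      _ ≤ Real.exp (-t) * hP u e (t - j * S) x := by gcongr
  · -- local gain
    intro j hj x hx
    obtain ⟨c1, c2, c3⟩ := htime j hj.le
    obtain ⟨c4, c5, c6⟩ := htime' j hj
    obtain ⟨r1, r2, r3⟩ := hhP _ c1 c3 x (hball' x hx)
    obtain ⟨⟨b1, b2, b3⟩, ⟨b4, b4'⟩, b5, -⟩ := hB _ c1 c3 x (hball' x hx)
    rcases (hcs _ c1 c3 x (hball' x hx)).1 with h | ⟨h2, h3, h4⟩
    · have h1 : hP u e (t - j * S) x ≤
          ∫ y, gk (pot f u) (t - j * S) x (t - j * S - S) y * hP u e (t - j * S - S) y := by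
        rw [r1]
        exact (le_max_left _ _).trans ((zc_z hKER hV zdt zdx he).pos_le hKER hV c5
          (by linarith) x)
      have h2 := hTRIV N K S (t - j * S) β cc (pot f u) (hP u e (t - j * S - S)) x e hV hS0 hβ.le
        hcc.le he (hP_meas zdt zdx e c5) (fun y => hP_nonneg y)
        ⟨2 * C, fun y => hP_le he hCb c5 y⟩ (lt_of_lt_of_le r2 h1)
      have h3 := Real.log_le_log r2 h1
      rw [h, ← r1, div_self r2.ne']
      rw [hκdef]
      linarith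
    · have h5 := (hftl _ (by linarith) x e b4 b4' (h2.trans (min_le_left _ _)) h3).1
      rw [← r1] at h5
      have h6 : 0 ≤ κ * S * (dT u e τ q Λ θ (t - j * S) x / hP u e (t - j * S) x) :=
        mul_nonneg (by positivity) (div_nonneg (dT_nonneg x) r2.le)
      have h7 : Real.log (hP u e (t - j * S) x) + g * S ≤
        Gn (pot f u) (hP u e (t - j * S - S)) β cc e S (t - j * S) x := h5
      linarith only [h6, h7]
  · -- start
    refine le_trans (Real.exp_le_exp.2 ?_) (p3.trans (by rw [q1]; linarith))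
    have : ε * t ≤ δ * t := by gcongr
    linarith
  · -- terminal condition
    intro y hy
    left
    obtain ⟨c1, c2, c3⟩ := htime n le_rfl
    obtain ⟨r1, r2, r3⟩ := hhP _ c1 c3 y (hball' y hy)
    obtain ⟨⟨b1, b2, b3⟩, -, -, b6⟩ := hB _ c1 c3 y (hball' y hy)
    have g1 := (hgeo t s6 x0 e (ndir_mono hn hf2) (by
      have : ηf * t ≤ cc / 2 * t := by gcongr
      linarith only [hd'.1, hd', this]) (by
      have : ηf * t ≤ cc / 2 * t := by gcongr
      have : 0 < cc * t := by positivity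
      linarith [hd'.2]) y (by rwa [mem_closedBall] at hy)).1
    have g2 : β * (infDist x0 U + inner ℝ (y - x0) e - cc * (t - n * S)) ≤
        β * (infDist y U - cc * (t - n * S)) + β * ε * t := by
      have : β * (infDist x0 U + inner ℝ (y - x0) e - cc * (t - n * S)) ≤
        β * (infDist y U - cc * (t - n * S) + ε * t) := by
        gcongr
        linarith only [g1]
      linarith only [this]
    rcases le_or_gt (cc * (t - n * S)) (infDist y U) with h | h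
    · have h1 := hahd (t - n * S) (by linarith only [hρ2, hδ, hδρ, s4, s10, hn1, hδt, hρt]) y h (by linarith only [(abs_le.1 b6).2, b6])
      have h2 := (hP_le_gr (u := u) he (s := t - n * S) y).trans h1
      have h3 : Real.log (hP u e (t - n * S) y) ≤
          -(cc / 2 * (infDist y U - cc * (t - n * S))) + ε * (t - n * S) := by
        rw [← Real.log_exp (-(cc / 2 * (infDist y U - cc * (t - n * S))) + ε * (t - n * S))]
        exact Real.log_le_log r2 h2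
      have h4 : ε * (t - n * S) ≤ ε * t := by
        have : 0 ≤ ε * (n * S) := by positivity
        linarith only [this]
      rw [hB1]
      rw [← hβdef] at h3
      linarith only [hlC, g2, h3, h4]
    · have h3 : Real.log (hP u e (t - n * S) y) ≤ Real.log (2 * C) :=
        Real.log_le_log r2 (hP_le he hCb c2 y)
      have h4 : β * (infDist y U - cc * (t - n * S)) ≤ 0 :=
        mul_nonpos_of_nonneg_of_nonpos hβ.le (by linarith only [h])
      have h5 : 0 < ε * t := by positivity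
      rw [hB1]
      linarith only [g2, h3, h4, h5]
  · simp

end Pool.Agent.H35.RF
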