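import Pool.Agent.H35.RF.FTS

/-!
# [FT] in the tail of the pulled component the speed tends to `c` and the tilt to `0`
-/

open MeasureTheory Set Filter Topology Metric
open Pool.Agent.H29.TF (hk P)
open Pool.Agent.H91.RD Pool.Agent.H91.RF Pool.Agent.H3.RF

namespace Pool.Agent.H35.RF

section

variable {N : ℕ} {U : Set (E N)} {u : ℝ → E N → ℝ} {cc C0 C9 η0 : ℝ}

/-- `Qv` for smaller values, with a small loss -/
lemma qv_mono (hF : Frm U u cc C0 C9 η0) (hKI : KIn U u cc) (hcc : 0 < cc) {τ : ℝ}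
    (h : ∀ ε > 0, ∃ τ', τ - ε ≤ τ' ∧ Qv U u cc τ') : Qv U u cc τ := by
  intro ε hε
  obtain ⟨τ', hτ', hQ⟩ := h (ε / 2) (by linarith)
  obtain ⟨lam, hlam, η1, hη1, T1, hT1, h1⟩ := hQ (ε / 2) (by linarith)
  obtain ⟨η2, hη2, T2, hT2, h2⟩ := kin_low hF hKI hcc 1 one_pos
  refine ⟨lam, hlam, min η1 η2, lt_min hη1 hη2, max T1 T2, lt_max_of_lt_left hT1, ?_⟩
  intro t ht x e hn hd hu
  have ht1 : T1 ≤ t := (le_max_left _ _).trans ht
  have ht2 : T2 ≤ t := (le_max_right _ _).trans ht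
  have ht0 : 0 < t := lt_of_lt_of_le hT1 ht1
  have a := h1 t ht1 x e (ndir_mono hn (min_le_left _ _))
    (hd.trans (mul_le_mul_of_nonneg_right (min_le_left _ _) ht0.le)) hu
  obtain ⟨-, -, -, -, b⟩ := h2 t ht2 x e (ndir_mono hn (min_le_right _ _))
    (hd.trans (mul_le_mul_of_nonneg_right (min_le_right _ _) ht0.le))
  refine le_trans ?_ a
  exact mul_le_mul_of_nonneg_right (by linarith) b.le

lemma qv_zero (hF : Frm U u cc C0 C9 η0) (hKI : KIn U u cc) (hcc : 0 < cc) : Qv U u cc 0 := by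
  intro ε hε
  obtain ⟨η2, hη2, T2, hT2, h2⟩ := kin_low hF hKI hcc 1 one_pos
  refine ⟨1, one_pos, η2, hη2, T2, hT2, ?_⟩
  intro t ht x e hn hd hu
  obtain ⟨a, -, -, -, b⟩ := h2 t ht x e hn hd
  have : 0 < ε * dt u t x := by positivity
  linarith

/-- from `τ = 1 / cc` to the conclusion -/
lemma qv_end (hF : Frm U u cc C0 C9 η0) (hKI : KIn U u cc) (hcc : 0 < cc)
    (hQ : Qv U u cc (1 / cc)) : VacR U u cc := by
  intro ε hε
  set ε' : ℝ := min ε (cc * ε / 2) with hε'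
  have hε'0 : 0 < ε' := by positivity
  have he1 : 0 < 1 / cc - 1 / (cc + ε') := by
    have : 1 / (cc + ε') < 1 / cc := one_div_lt_one_div_of_lt hcc (by linarith)
    linarith
  obtain ⟨lam, hlam, η1, hη1, T1, hT1, h1⟩ := hQ _ he1
  obtain ⟨η2, hη2, T2, hT2, h2⟩ := kin_low hF hKI hcc 1 one_pos
  obtain ⟨η3, hη3, T3, hT3, h3⟩ := hKI (cc * ε / 2) (by positivity)
  refine ⟨lam, hlam, min η1 (min η2 η3), by positivity, max T1 (max T2 T3),
    lt_max_of_lt_left hT1, ?_⟩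
  intro t ht x e hn hd hu
  have ht1 : T1 ≤ t := (le_max_left _ _).trans ht
  have ht2 : T2 ≤ t := ((le_max_left _ _).trans (le_max_right _ _)).trans ht
  have ht3 : T3 ≤ t := ((le_max_right _ _).trans (le_max_right _ _)).trans ht
  have ht0 : 0 < t := lt_of_lt_of_le hT1 ht1
  have l2 : min η1 (min η2 η3) ≤ η2 := (min_le_right _ _).trans (min_le_left _ _)
  have l3 : min η1 (min η2 η3) ≤ η3 := (min_le_right _ _).trans (min_le_right _ _)
  have a := h1 t ht1 x e (ndir_mono hn (min_le_left _ _))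
    (hd.trans (mul_le_mul_of_nonneg_right (min_le_left _ _) ht0.le)) hu
  obtain ⟨b, -, -, -, b'⟩ := h2 t ht2 x e (ndir_mono hn l2)
    (hd.trans (mul_le_mul_of_nonneg_right l2 ht0.le))
  have c := h3 t ht3 x e (ndir_mono hn l3) (hd.trans (mul_le_mul_of_nonneg_right l3 ht0.le))
  have hε1 : ε' ≤ ε := min_le_left _ _
  have hε2 : ε' ≤ cc * ε / 2 := min_le_right _ _
  have d1 : dt u t x ≤ (cc + ε') * -dx u e t x := by
    have h4 : 1 / (cc + ε') * dt u t x ≤ -dx u e t x := by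
      have : 1 / cc - (1 / cc - 1 / (cc + ε')) = 1 / (cc + ε') := by ring
      rwa [this] at a
    rw [one_div, inv_mul_le_iff₀ (by positivity)] at h4
    exact h4
  refine ⟨d1.trans (mul_le_mul_of_nonneg_right (by linarith) b.le), ?_⟩
  have d2 : cc * gr u t x ^ 2 ≤ cc * ((1 + ε) * -dx u e t x) ^ 2 := by
    refine c.trans ?_
    calc (dt u t x + cc * ε / 2 * -dx u e t x) * -dx u e t x
        ≤ ((cc + cc * ε / 2) * -dx u e t x + cc * ε / 2 * -dx u e t x) * -dx u e t x := by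
          gcongr
          exact d1.trans (mul_le_mul_of_nonneg_right (by linarith) b.le)
      _ = cc * ((1 + ε) * (-dx u e t x) ^ 2) := by ring
      _ ≤ cc * ((1 + ε) ^ 2 * (-dx u e t x) ^ 2) := by
          gcongr
          nlinarith
      _ = cc * ((1 + ε) * -dx u e t x) ^ 2 := by ring
  have d3 : gr u t x ^ 2 ≤ ((1 + ε) * -dx u e t x) ^ 2 := le_of_mul_le_mul_left d2 hcc
  exact (abs_le_of_sq_le_sq' d3 (by positivity)).2

end

theorem FT (hKER : T_KER) (hNSUP : T_NSUP) (hGEOB : T_GEOB) (hUPB : T_UPB)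
    (hKREP : T_KREP) (hLINU : T_LINU) (hTRIV : T_TRIV) (hCHN : T_CHN) (hFTL : T_FTL) : T_FT := by
  intro N f K C0 C9 η0 cc hi U u hS hMac hfp hF hAD hKI hVS
  have hcc := hMac.cpos
  refine qv_end hF hKI hcc ?_
  set A : Set ℝ := {τ | 0 ≤ τ ∧ τ * cc ≤ 1 ∧ Qv U u cc τ} with hA
  have hA0 : (0 : ℝ) ∈ A := ⟨le_rfl, by simp, qv_zero hF hKI hcc⟩
  have hAb : BddAbove A := ⟨1 / cc, fun τ hτ => by
    rw [le_div_iff₀ hcc]
    exact hτ.2.1⟩
  have hs0 : 0 ≤ sSup A := le_csSup hAb hA0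
  have hs1 : sSup A ≤ 1 / cc := csSup_le ⟨0, hA0⟩ fun τ hτ => by
    rw [le_div_iff₀ hcc]
    exact hτ.2.1
  have hQs : Qv U u cc (sSup A) := by
    refine qv_mono hF hKI hcc fun ε hε => ?_
    obtain ⟨τ, hτ, hτ2⟩ := exists_lt_of_lt_csSup ⟨0, hA0⟩ (by linarith : sSup A - ε < sSup A)
    exact ⟨τ, hτ2.le, hτ.2.2⟩
  rcases hs1.lt_or_eq with h | h
  · exfalso
    have h1 : sSup A * cc < 1 := by rwa [lt_div_iff₀ hcc] at h
    obtain ⟨ε3, hε3, hQ3⟩ := qv_step hKER hNSUP hGEOB hUPB hKREP hLINU hTRIV hCHN hFTL hS hMac hfp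
      hF hAD hKI hVS hs0 h1 hQs
    have h2 : min (sSup A + ε3) (1 / cc) ∈ A := by
      refine ⟨by positivity, ?_, ?_⟩
      · rw [← le_div_iff₀ hcc]
        exact min_le_right _ _
      · refine qv_mono hF hKI hcc fun ε hε => ⟨sSup A + ε3, ?_, hQ3⟩
        have := min_le_left (sSup A + ε3) (1 / cc)
        linarith
    have h3 := le_csSup hAb h2
    have h4 : sSup A < min (sSup A + ε3) (1 / cc) := lt_min (by linarith) h
    linarith
  · rwa [h] at hQs

end Pool.Agent.H35.RF
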