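import Pool.Agent.H3.RF.Lib2
import Pool.Agent.H91.RF.TargetsR

/-!
# Tools for the pulled component
-/

open MeasureTheory Set Filter Topology Metric
open Pool.Agent.H29.TF (hk P)
open Pool.Agent.H91.RD Pool.Agent.H91.RF Pool.Agent.H3.RF

namespace Pool.Agent.H35.RF

section

variable {N : ℕ} {u : ℝ → E N → ℝ} {V : ℝ → E N → ℝ} {K C : ℝ}

lemma zc_z (hKER : T_KER) (hV : Pt K V) (zdt : Zc V C (dt u))
    (zdx : ∀ h, Zc V (C * ‖h‖) (dx u h)) {e : E N} (he : ‖e‖ = 1) :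
    Zc V (2 * C) (fun s y => dt u s y + -dx u e s y) := by
  have h1 := Zc.lin hKER hV (zdx e) zdt (-1) 1
  have e1 : (fun s y => dt u s y + -dx u e s y) =
      fun s y => (-1) * dx u e s y + 1 * dt u s y := by
    funext s y; ring
  rw [e1]
  refine h1.mono ?_
  rw [he]
  simp only [abs_neg, abs_one]
  linarith

lemma zc_g (hKER : T_KER) (hV : Pt K V) (zdt : Zc V C (dt u))
    (zdx : ∀ h, Zc V (C * ‖h‖) (dx u h)) {e : E N} (he : ‖e‖ = 1) (c : ℝ) :
    Zc V (C + |c| * C) (fun s y => -dx u e s y - c * dt u s y) := by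
  have h1 := Zc.lin hKER hV (zdx e) zdt (-1) (-c)
  have e1 : (fun s y => -dx u e s y - c * dt u s y) =
      fun s y => (-1) * dx u e s y + (-c) * dt u s y := by
    funext s y; ring
  rw [e1]
  refine h1.mono ?_
  rw [he]
  simp only [abs_neg, abs_one]
  linarith

lemma abs_dx_le' {e : E N} (he : ‖e‖ = 1) (s : ℝ) (y : E N) : |dx u e s y| ≤ gr u s y := by
  have := (fderiv ℝ (u s) y).le_opNorm e
  rw [he, mul_one] at this
  exact this

end

section

variable {N : ℕ} {f : ℝ → ℝ} {K : ℝ} {U : Set (E N)} {u : ℝ → E N → ℝ} {cc C0 C9 η0 : ℝ}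

lemma stg_rng (hS : Stg f K U u) {t : ℝ} (ht : 0 < t) (x : E N) : 0 ≤ u t x ∧ u t x ≤ 1 := by
  have h := hS.sol.rng t ht.le x
  unfold lift0 at h
  simpa [not_le.2 ht] using h

lemma stg_cont (hS : Stg f K U u) {t : ℝ} (ht : 0 < t) : Continuous (u t) :=
  (hS.sol.sol.c2 t ht).continuous

/-- positivity, lower bound of `p`, positivity of the time derivative -/
lemma kin_low (hF : Frm U u cc C0 C9 η0) (hKI : KIn U u cc) (hcc : 0 < cc) (ε : ℝ) (hε : 0 < ε) :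
    ∃ η > 0, ∃ T > 0, ∀ t ≥ T, ∀ x e, NDir U η x e → |infDist x U - cc * t| ≤ η * t →
      0 < -dx u e t x ∧ gr u t x ≤ C0 * -dx u e t x ∧ Real.exp (-(ε * t)) ≤ -dx u e t x ∧
      cc / 2 * -dx u e t x ≤ dt u t x ∧ 0 < dt u t x := by
  obtain ⟨η1, hη1, T1, hT1, h1⟩ := frm_low hF ε hε
  obtain ⟨η2, hη2, T2, hT2, h2⟩ := hKI (cc / 2) (by linarith)
  refine ⟨min η1 η2, lt_min hη1 hη2, max T1 T2, lt_max_of_lt_left hT1, ?_⟩
  intro t ht x e hn hd
  have ht1 : T1 ≤ t := (le_max_left _ _).trans ht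
  have ht2 : T2 ≤ t := (le_max_right _ _).trans ht
  have ht0 : 0 < t := lt_of_lt_of_le hT1 ht1
  obtain ⟨a1, a2, a3⟩ := h1 t ht1 x e (ndir_mono hn (min_le_left _ _))
    (hd.trans (mul_le_mul_of_nonneg_right (min_le_left _ _) ht0.le))
  have b := h2 t ht2 x e (ndir_mono hn (min_le_right _ _))
    (hd.trans (mul_le_mul_of_nonneg_right (min_le_right _ _) ht0.le))
  have hg : -dx u e t x ≤ gr u t x := (neg_le_abs _).trans (abs_dx_le' hn.1 t x)
  have hg2 : (-dx u e t x) ^ 2 ≤ gr u t x ^ 2 := pow_le_pow_left₀ a1.le hg 2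
  have h3 : cc * (-dx u e t x) * (-dx u e t x) ≤
      (dt u t x + cc / 2 * -dx u e t x) * -dx u e t x := by
    calc cc * (-dx u e t x) * (-dx u e t x) = cc * (-dx u e t x) ^ 2 := by ring
      _ ≤ cc * gr u t x ^ 2 := by gcongr
      _ ≤ _ := b
  have h4 := le_of_mul_le_mul_right h3 a1
  have h5 : cc / 2 * -dx u e t x ≤ dt u t x := by linarith
  exact ⟨a1, a2, a3, h5, lt_of_lt_of_le (by positivity) h5⟩

end

end Pool.Agent.H35.RF
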